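import Pool.Agent.W580.SH.StmB

/-! Project SH (MP_ba6ea3_co): configurations R, S3, E5. -/

namespace Pool.Agent.W641.SH

open Finset Pool.Agent.W580.SH

lemma det_ne {k : ℕ} {M Q : Matrix (Fin k) (Fin k) ℤ} (h : M * Q = 1) : M.det ≠ 0 := by
  intro h0
  have h1 := congrArg Matrix.det h
  rw [Matrix.det_mul, h0, zero_mul, Matrix.det_one] at h1
  exact zero_ne_one h1

theorem r : S_R := by
  intro R _ _ I A O θ h r hO p hp h0 hb
  have h1 : ∀ a, p 1 (r a) = (if a = 0 then 1 else 0 : ℤ) := hb 0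
  have h2 : ∀ a, p 2 (r a) = (if a = 1 then 1 else 0 : ℤ) := hb 1
  have h3 : ∀ a, p 3 (r a) = (if a = 2 then 1 else 0 : ℤ) := hb 2
  have h4 : ∀ a, p 4 (r a) = (if a = 3 then 1 else 0 : ℤ) := hb 3
  have hM : oneMat r p = !![1,1,1,1,1;0,1,0,0,0;0,0,1,0,0;0,0,0,1,0;0,0,0,0,1] := by
    ext i j
    refine Fin.cases ?_ (fun a => ?_) i
    · show (1:ℤ) = _
      fin_cases j <;> rfl
    · show p j (r a) = _
      fin_cases j
      · show p 0 (r a) = _
        rw [h0 a]; fin_cases a <;> rfl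
      · show p 1 (r a) = _
        rw [h1 a]; fin_cases a <;> rfl
      · show p 2 (r a) = _
        rw [h2 a]; fin_cases a <;> rfl
      · show p 3 (r a) = _
        rw [h3 a]; fin_cases a <;> rfl
      · show p 4 (r a) = _
        rw [h4 a]; fin_cases a <;> rfl
  have hdet : (oneMat r p).det ≠ 0 := by
    rw [hM]
    exact det_ne (Q := !![1,-1,-1,-1,-1;0,1,0,0,0;0,0,1,0,0;0,0,0,1,0;0,0,0,0,1]) (by decide)
  have hk := (h.key 4 r p (fun j => hp j)).2 hdet ![1 - 4 * θ, θ, θ, θ, θ] (by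
    simp [Fin.sum_univ_succ]
    ring) (by
    intro a
    rw [hO a]
    fin_cases a <;> simp [Fin.sum_univ_succ, h0, h1, h2, h3, h4]) {0}
  simp at hk
  linarith

theorem s3 : S_S3 := by
  intro R _ _ I A O θ h r hO p hp h0 h1 h2 h3 h4
  have hM : oneMat r p = !![1,1,1,1,1;1,1,1,1,0;1,0,0,0,0;0,1,0,0,0;0,0,1,0,0] := by
    ext i j
    refine Fin.cases ?_ (fun a => ?_) i
    · show (1:ℤ) = _
      fin_cases j <;> rfl
    · show p j (r a) = _
      fin_cases j
      · show p 0 (r a) = _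
        rw [h0 a]; fin_cases a <;> rfl
      · show p 1 (r a) = _
        rw [h1 a]; fin_cases a <;> rfl
      · show p 2 (r a) = _
        rw [h2 a]; fin_cases a <;> rfl
      · show p 3 (r a) = _
        rw [h3 a]; fin_cases a <;> rfl
      · show p 4 (r a) = _
        rw [h4 a]; fin_cases a <;> rfl
  have hdet : (oneMat r p).det ≠ 0 := by
    rw [hM]
    exact det_ne (Q := !![0,0,1,0,0;0,0,0,1,0;0,0,0,0,1;0,1,-1,-1,-1;1,-1,0,0,0]) (by decide)
  have hk := (h.key 4 r p (fun j => hp j)).2 hdet ![θ, θ, θ, -2 * θ, 1 - θ] (by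
    simp [Fin.sum_univ_succ]
    ring) (by
    intro a
    rw [hO a]
    fin_cases a <;> simp [Fin.sum_univ_succ, h0, h1, h2, h3, h4]
    all_goals ring) {3}
  simp at hk
  have := h.pos
  linarith

theorem e5 : S_E5 := by
  intro R _ _ I A O θ h hθ r hO p hp h0 hb
  have h1 : ∀ a, p 1 (r a) = (if a = 0 then 1 else 0 : ℤ) := hb 0
  have h2 : ∀ a, p 2 (r a) = (if a = 1 then 1 else 0 : ℤ) := hb 1
  have h3 : ∀ a, p 3 (r a) = (if a = 2 then 1 else 0 : ℤ) := hb 2
  have h4 : ∀ a, p 4 (r a) = (if a = 3 then 1 else 0 : ℤ) := hb 3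
  have h5 : ∀ a, p 5 (r a) = (if a = 4 then 1 else 0 : ℤ) := hb 4
  rcases h0 with h0 | h0
  · have hM : oneMat r p = !![1,1,1,1,1,1;0,1,0,0,0,0;0,0,1,0,0,0;0,0,0,1,0,0;0,0,0,0,1,0;
        0,0,0,0,0,1] := by
      ext i j
      refine Fin.cases ?_ (fun a => ?_) i
      · show (1:ℤ) = _
        fin_cases j <;> rfl
      · show p j (r a) = _
        fin_cases j
        · show p 0 (r a) = _
          rw [h0 a]; fin_cases a <;> rfl
        · show p 1 (r a) = _
          rw [h1 a]; fin_cases a <;> rfl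
        · show p 2 (r a) = _
          rw [h2 a]; fin_cases a <;> rfl
        · show p 3 (r a) = _
          rw [h3 a]; fin_cases a <;> rfl
        · show p 4 (r a) = _
          rw [h4 a]; fin_cases a <;> rfl
        · show p 5 (r a) = _
          rw [h5 a]; fin_cases a <;> rfl
    have hdet : (oneMat r p).det ≠ 0 := by
      rw [hM]
      exact det_ne (Q := !![1,-1,-1,-1,-1,-1;0,1,0,0,0,0;0,0,1,0,0,0;0,0,0,1,0,0;0,0,0,0,1,0;
        0,0,0,0,0,1]) (by decide)
    have hk := (h.key 5 r p (fun j => hp j)).2 hdet ![1 - 5 * θ, θ, θ, θ, θ, θ] (by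
      simp [Fin.sum_univ_succ]
      ring) (by
      intro a
      rw [hO a]
      fin_cases a <;> simp [Fin.sum_univ_succ, h0, h1, h2, h3, h4, h5]) {0}
    simp at hk
    linarith
  · have hM : oneMat r p = !![1,1,1,1,1,1;1,1,0,0,0,0;1,0,1,0,0,0;0,0,0,1,0,0;0,0,0,0,1,0;
        0,0,0,0,0,1] := by
      ext i j
      refine Fin.cases ?_ (fun a => ?_) i
      · show (1:ℤ) = _
        fin_cases j <;> rfl
      · show p j (r a) = _
        fin_cases j
        · show p 0 (r a) = _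
          rw [h0 a]; fin_cases a <;> rfl
        · show p 1 (r a) = _
          rw [h1 a]; fin_cases a <;> rfl
        · show p 2 (r a) = _
          rw [h2 a]; fin_cases a <;> rfl
        · show p 3 (r a) = _
          rw [h3 a]; fin_cases a <;> rfl
        · show p 4 (r a) = _
          rw [h4 a]; fin_cases a <;> rfl
        · show p 5 (r a) = _
          rw [h5 a]; fin_cases a <;> rfl
    have hdet : (oneMat r p).det ≠ 0 := by
      rw [hM]
      exact det_ne (Q := !![-1,1,1,1,1,1;1,0,-1,-1,-1,-1;1,-1,0,-1,-1,-1;0,0,0,1,0,0;0,0,0,0,1,0;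
        0,0,0,0,0,1]) (by decide)
    have hk := (h.key 5 r p (fun j => hp j)).2 hdet
      ![5 * θ - 1, 1 - 4 * θ, 1 - 4 * θ, θ, θ, θ] (by
      simp [Fin.sum_univ_succ]
      ring) (by
      intro a
      rw [hO a]
      fin_cases a <;> simp [Fin.sum_univ_succ, h0, h1, h2, h3, h4, h5]
      all_goals ring) {1, 2}
    simp at hk
    linarith

end Pool.Agent.W641.SH
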