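import Pool.Agent.W836.SH.Stm

/-! # SH-AX: adding a row with the smallest `τ` -/

open scoped Classical

namespace Pool.Agent.W641.SH

open Pool.Agent.W836.SH

theorem res_eq {ι : Type} (I : Finset ι) (v w : ι → ℝ) (h : ∀ i ∈ I, w i = v i) :
    res I w = res I v := by
  funext i
  unfold res
  by_cases hi : i ∈ I
  · rw [if_pos hi, if_pos hi, h i hi]
  · rw [if_neg hi, if_neg hi]

theorem abs_le_of_TS {ι : Type} (V : Finset (ι → ℝ)) (h : TS V) (v : ι → ℝ) (hv : v ∈ V) (i : ι) :
    |v i| ≤ 1 := by
  have := h 1 (fun _ => i) (fun _ => v) (fun _ => hv)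
  simpa [Matrix.det_fin_one] using this

theorem main (h1 : S_A) : S_AX := by
  intro ι I V t s hsI hTS ht ht0 hth hV hI
  -- entries
  have habs := abs_le_of_TS V hTS
  have hs2 : ∀ v ∈ V, v s = t s ∨ v s = t s - 1 := by
    intro v hv
    rcases hV v hv s (Finset.mem_insert_self _ _) with h | h | h
    · exact Or.inr h
    · exact Or.inl h
    · exfalso
      have h2 := habs v hv s
      rw [h] at h2
      have h3 := (abs_le.1 h2).2
      have h4 := (ht s).1
      have h5 : t s = 0 := by linarith
      exact ht0 h5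
  -- lifts
  have hlift : ∀ x ∈ XX s I V, ∀ a : ℝ, (a = t s ∨ a = t s - 1) →
      ∃ v ∈ V, (∀ i ∈ I, v i = x i) ∧ v s = a := by
    intro x hx a ha
    obtain ⟨v, hv, rfl⟩ := Finset.mem_image.1 hx
    obtain ⟨hvV, w, hwV, hw, hws⟩ := Finset.mem_filter.1 hv
    have hres : ∀ i ∈ I, res I v i = v i := fun i hi => by unfold res; rw [if_pos hi]
    by_cases hva : v s = a
    · exact ⟨v, hvV, fun i hi => (hres i hi).symm, hva⟩
    · refine ⟨w, hwV, fun i hi => by rw [hw i hi, hres i hi], ?_⟩
      rcases hs2 v hvV with h | h <;> rcases hs2 w hwV with h' | h' <;> rcases ha with h'' | h''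
      · exact absurd (h'.trans h.symm) hws
      · exact absurd (h'.trans h.symm) hws
      · exact absurd (h.trans h''.symm) hva
      · exact h'.trans h''.symm
      · exact h'.trans h''.symm
      · exact absurd (h.trans h''.symm) hva
      · exact absurd (h'.trans h.symm) hws
      · exact absurd (h'.trans h.symm) hws
  have hsupp : SuppOn I (XX s I V) := by
    intro x hx i hi
    obtain ⟨v, hv, rfl⟩ := Finset.mem_image.1 hx
    unfold res
    rw [if_neg hi]
  -- the parameter
  obtain ⟨τ, hτ0, hτ1, hcase⟩ : ∃ τ : ℝ, 0 < τ ∧ τ < 1 / 2 ∧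
      ((t s < 1 / 2 ∧ τ = t s) ∨ (1 / 2 < t s ∧ τ = 1 - t s)) := by
    have h0 : 0 < t s := lt_of_le_of_ne (ht s).1 (Ne.symm ht0)
    rcases lt_or_gt_of_ne hth with h | h
    · exact ⟨t s, h0, h, Or.inl ⟨h, rfl⟩⟩
    · exact ⟨1 - t s, by linarith [(ht s).2], by linarith, Or.inr ⟨h, rfl⟩⟩
  have hPA : PA τ (XX s I V) := by
    intro k r x v hx hv
    by_cases hr : ∀ i, r i ∈ I
    · -- choose the sign
      obtain ⟨σ, hσ, hσv⟩ : ∃ σ : ℝ, |σ| = 1 ∧ ∀ j, σ * v j = t s ∨ σ * v j = t s - 1 := by
        rcases hcase with ⟨_, h⟩ | ⟨_, h⟩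
        · refine ⟨1, abs_one, fun j => ?_⟩
          rw [one_mul, ← h]
          exact hv j
        · refine ⟨-1, by rw [abs_neg, abs_one], fun j => ?_⟩
          rcases hv j with h2 | h2
          · right
            rw [h2, h]; ring
          · left
            rw [h2, h]; ring
      choose c hcV hcI hcs using fun j => hlift (x j) (hx j) (σ * v j) (hσv j)
      have h2 := hTS (k + 1) (Fin.cons s r) c hcV
      have h3 : (Matrix.of fun i j => c j ((Fin.cons s r : Fin (k + 1) → ι) i) :
          Matrix (Fin (k + 1)) (Fin (k + 1)) ℝ) =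
          (Matrix.of (Fin.cons v (fun i j => x j (r i))) :
            Matrix (Fin (k + 1)) (Fin (k + 1)) ℝ).updateRow 0 (σ • v) := by
        ext i j
        refine Fin.cases ?_ (fun i' => ?_) i
        · rw [Matrix.updateRow_self]
          show c j s = σ * v j
          exact hcs j
        · rw [Matrix.updateRow_ne (Fin.succ_ne_zero i')]
          show c j (r i') = x j (r i')
          exact hcI j (r i') (hr i')
      have h4 : (Matrix.of (Fin.cons v (fun i j => x j (r i))) :
            Matrix (Fin (k + 1)) (Fin (k + 1)) ℝ).updateRow 0 v =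
          (Matrix.of (Fin.cons v (fun i j => x j (r i))) :
            Matrix (Fin (k + 1)) (Fin (k + 1)) ℝ) := by
        ext i j
        refine Fin.cases ?_ (fun i' => ?_) i
        · rw [Matrix.updateRow_self]
          rfl
        · rw [Matrix.updateRow_ne (Fin.succ_ne_zero i')]
      rw [h3, Matrix.det_updateRow_smul, h4, abs_mul, hσ, one_mul] at h2
      exact h2
    · push Not at hr
      obtain ⟨i, hi⟩ := hr
      rw [Matrix.det_eq_zero_of_row_eq_zero (i.succ), abs_zero]
      · exact zero_le_one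
      · intro j
        show x j (r i) = 0
        exact hsupp (x j) (hx j) (r i) hi
  -- rows with t = 0
  have hint : ∀ i, ∀ x ∈ XX s I V, ∀ y ∈ XX s I V, x i = 1 → y i = -1 → False := by
    intro i x hx y hy hxi hyi
    have h2 := hPA 1 (fun _ => i) ![x, y] (fun _ => τ - 1) (by
      intro j
      fin_cases j
      · exact hx
      · exact hy) (fun _ => Or.inr rfl)
    rw [Matrix.det_fin_two] at h2
    have e1 : (Matrix.of (Fin.cons (fun _ => τ - 1) (fun (_ : Fin 1) j => (![x, y] : Fin 2 → ι → ℝ) j i)) :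
      Matrix (Fin 2) (Fin 2) ℝ) 0 0 = τ - 1 := rfl
    have e2 : (Matrix.of (Fin.cons (fun _ => τ - 1) (fun (_ : Fin 1) j => (![x, y] : Fin 2 → ι → ℝ) j i)) :
      Matrix (Fin 2) (Fin 2) ℝ) 0 1 = τ - 1 := rfl
    have e3 : (Matrix.of (Fin.cons (fun _ => τ - 1) (fun (_ : Fin 1) j => (![x, y] : Fin 2 → ι → ℝ) j i)) :
      Matrix (Fin 2) (Fin 2) ℝ) 1 0 = x i := rfl
    have e4 : (Matrix.of (Fin.cons (fun _ => τ - 1) (fun (_ : Fin 1) j => (![x, y] : Fin 2 → ι → ℝ) j i)) :
      Matrix (Fin 2) (Fin 2) ℝ) 1 1 = y i := rfl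
    rw [e1, e2, e3, e4, hxi, hyi] at h2
    have h3 := (abs_le.1 h2).2
    linarith
  -- the vector o
  let o : ι → ℝ := fun i => if t i = 0 then (if ∃ y ∈ XX s I V, y i = -1 then 1 else 0) else 1 - t i
  refine h1 ι I (XX s I V) o τ hτ0 hτ1 hPA hsupp ?_ ?_
  · intro i hi x hx
    -- entries of x
    have hx3 : (x i = t i - 1 ∨ x i = t i ∨ x i = t i + 1) ∧ |x i| ≤ 1 := by
      obtain ⟨v, hvV, hvI, _⟩ := hlift x hx (t s) (Or.inl rfl)
      rw [← hvI i hi]
      exact ⟨hV v hvV i (Finset.mem_insert_of_mem hi), habs v hvV i⟩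
    by_cases hti : t i = 0
    · rw [hti] at hx3
      by_cases hy : ∃ y ∈ XX s I V, y i = -1
      · have ho : o i = 1 := by
          show (if t i = 0 then (if ∃ y ∈ XX s I V, y i = -1 then (1 : ℝ) else 0) else 1 - t i) = 1
          rw [if_pos hti, if_pos hy]
        rw [ho]
        obtain ⟨y, hyX, hyi⟩ := hy
        rcases hx3.1 with h | h | h
        · left; linarith
        · right; linarith
        · exact (hint i x hx y hyX (by linarith) hyi).elim
      · have ho : o i = 0 := by
          show (if t i = 0 then (if ∃ y ∈ XX s I V, y i = -1 then (1 : ℝ) else 0) else 1 - t i) = 0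
          rw [if_pos hti, if_neg hy]
        rw [ho]
        rcases hx3.1 with h | h | h
        · exact (hy ⟨x, hx, by linarith⟩).elim
        · left; linarith
        · right; linarith
    · have ho : o i = 1 - t i := by
        show (if t i = 0 then (if ∃ y ∈ XX s I V, y i = -1 then (1 : ℝ) else 0) else 1 - t i) = 1 - t i
        rw [if_neg hti]
      rw [ho]
      rcases hx3.1 with h | h | h
      · left; linarith
      · right; linarith
      · exfalso
        have h2 := (abs_le.1 hx3.2).2
        have h3 := (ht i).1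
        exact hti (by linarith)
  · intro i hi
    by_cases hti : t i = 0
    · by_cases hy : ∃ y ∈ XX s I V, y i = -1
      · right; right
        show (if t i = 0 then (if ∃ y ∈ XX s I V, y i = -1 then (1 : ℝ) else 0) else 1 - t i) = 1
        rw [if_pos hti, if_pos hy]
      · right; left
        show (if t i = 0 then (if ∃ y ∈ XX s I V, y i = -1 then (1 : ℝ) else 0) else 1 - t i) = 0
        rw [if_pos hti, if_neg hy]
    · left
      have ho : o i = 1 - t i := by
        show (if t i = 0 then (if ∃ y ∈ XX s I V, y i = -1 then (1 : ℝ) else 0) else 1 - t i) = 1 - t i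
        rw [if_neg hti]
      rw [ho]
      have h2 := hI i hi hti
      have h3 : |t s - 1 / 2| = 1 / 2 - τ := by
        rcases hcase with ⟨h, h'⟩ | ⟨h, h'⟩
        · rw [abs_of_neg (by linarith), h']; ring
        · rw [abs_of_pos (by linarith), h']; ring
      rw [h3] at h2
      have h4 := abs_le.1 h2
      constructor <;> linarith [h4.1, h4.2]

end Pool.Agent.W641.SH
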